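import Pool.Agent.L5helper86.UL.Bonf

set_option autoImplicit false

/-! Project RB (helper86): Brun's pure sieve for `0 ≤ b < B`. -/

open Finset

namespace Pool.Agent.L5helper86.RB

/-- the number of the `b < B` in a progression and with `b % p ∈ R p` for `p` in `D` -/
lemma br_count (R : ℕ → Finset ℕ) (B : ℕ) (D : Finset ℕ) : (∀ p ∈ D, p.Prime) → (∀ p ∈ D, R p ⊆ range p) →
    ∀ d : ℕ, 0 < d → (∀ p ∈ D, Nat.Coprime d p) → ∀ a : ℕ,
    |(#((range B).filter fun b => b ≡ a [MOD d] ∧ ∀ p ∈ D, b % p ∈ R p) : ℝ) -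
      B / d * ∏ p ∈ D, (#(R p) : ℝ) / p| ≤ ∏ p ∈ D, (#(R p) : ℝ) := by
  classical
  induction D using Finset.induction_on with
  | empty =>
    intro _ _ d hd _ a
    simp only [notMem_empty, false_imp_iff, implies_true, and_true, prod_empty, mul_one]
    have h1 : #((range B).filter fun b => b ≡ a [MOD d]) = B / d + if a % d < B % d then 1 else 0 := by
      rw [← Nat.count_eq_card_filter_range]
      exact Nat.count_modEq_card B hd a
    rw [h1]
    have hd0 : (0 : ℝ) < d := by exact_mod_cast hd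
    have h2 : (B : ℝ) = d * (B / d : ℕ) + (B % d : ℕ) := by exact_mod_cast (Nat.div_add_mod B d).symm
    have h3 : (B : ℝ) / d = (B / d : ℕ) + ((B % d : ℕ) : ℝ) / d := by
      rw [eq_comm, ← sub_eq_zero]
      have : ((B / d : ℕ) : ℝ) + ((B % d : ℕ) : ℝ) / d - (B : ℝ) / d =
          (d * (B / d : ℕ) + (B % d : ℕ) - B) / d := by
        field_simp
      rw [this, ← h2, sub_self, zero_div]
    have h4 : ((B % d : ℕ) : ℝ) / d ≤ 1 := by
      rw [div_le_one hd0]
      exact_mod_cast (Nat.mod_lt B hd).le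
    have h5 : 0 ≤ ((B % d : ℕ) : ℝ) / d := by positivity
    rw [h3]
    split_ifs
    · push_cast
      rw [abs_le]
      constructor <;> linarith
    · push_cast
      rw [abs_le]
      constructor <;> linarith
  | insert q D hq ih =>
    intro hD hR d hd hcop a
    have hqp := hD q (mem_insert_self q D)
    have hq0 : (q : ℝ) ≠ 0 := by exact_mod_cast hqp.ne_zero
    have hd0 : (d : ℝ) ≠ 0 := by exact_mod_cast hd.ne'
    have hdq := hcop q (mem_insert_self q D)
    have hRq := hR q (mem_insert_self q D)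
    have h1 : ∀ t : ℕ, |(#((range B).filter fun b =>
        b ≡ (Nat.chineseRemainder hdq a t : ℕ) [MOD (d * q)] ∧ ∀ p ∈ D, b % p ∈ R p) : ℝ) -
        B / ((d * q : ℕ) : ℝ) * ∏ p ∈ D, (#(R p) : ℝ) / p| ≤ ∏ p ∈ D, (#(R p) : ℝ) := by
      intro t
      refine ih (fun p hp => hD p (mem_insert_of_mem hp)) (fun p hp => hR p (mem_insert_of_mem hp)) (d * q)
        (Nat.mul_pos hd hqp.pos) ?_ _
      intro p hp
      refine Nat.Coprime.mul_left (hcop p (mem_insert_of_mem hp)) ?_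
      refine (Nat.coprime_primes hqp (hD p (mem_insert_of_mem hp))).2 ?_
      rintro rfl
      exact hq hp
    have h2 : #((range B).filter fun b => b ≡ a [MOD d] ∧ ∀ p ∈ insert q D, b % p ∈ R p) =
        ∑ t ∈ R q, #((range B).filter fun b =>
          b ≡ (Nat.chineseRemainder hdq a t : ℕ) [MOD (d * q)] ∧ ∀ p ∈ D, b % p ∈ R p) := by
      rw [card_eq_sum_card_fiberwise (f := fun b => b % q) (t := R q)]
      · refine sum_congr rfl fun t ht => ?_
        congr 1
        ext b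
        have hcr := (Nat.chineseRemainder hdq a t).2
        have htq : t % q = t := Nat.mod_eq_of_lt (mem_range.1 (hRq ht))
        simp only [mem_filter, mem_insert, forall_eq_or_imp]
        constructor
        · rintro ⟨⟨h1, h2, h3, h4⟩, h5⟩
          refine ⟨h1, ?_, h4⟩
          refine (Nat.modEq_and_modEq_iff_modEq_mul hdq).1 ⟨h2.trans hcr.1.symm, Nat.ModEq.trans ?_ hcr.2.symm⟩
          unfold Nat.ModEq
          rw [htq]
          exact h5
        · rintro ⟨h1, h2, h4⟩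
          have h6 := (Nat.modEq_and_modEq_iff_modEq_mul hdq).2 h2
          have h7 : b % q = t := by
            have := h6.2.trans hcr.2
            unfold Nat.ModEq at this
            rwa [htq] at this
          refine ⟨⟨h1, h6.1.trans hcr.1, ?_, h4⟩, h7⟩
          rw [h7]
          exact ht
      · intro b hb
        have hb' := (mem_filter.1 hb).2.2
        exact hb' q (mem_insert_self q D)
    rw [h2]
    have h6 : (B : ℝ) / d * ∏ p ∈ insert q D, (#(R p) : ℝ) / p =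
        ∑ _t ∈ R q, (B : ℝ) / ((d * q : ℕ) : ℝ) * ∏ p ∈ D, (#(R p) : ℝ) / p := by
      rw [sum_const, nsmul_eq_mul, prod_insert hq]
      push_cast
      field_simp
    rw [h6]
    push_cast
    rw [← sum_sub_distrib]
    refine (abs_sum_le_sum_abs _ _).trans ?_
    have h7 : ∑ t ∈ R q, |(#((range B).filter fun b =>
        b ≡ (Nat.chineseRemainder hdq a t : ℕ) [MOD (d * q)] ∧ ∀ p ∈ D, b % p ∈ R p) : ℝ) -
        B / ((d : ℝ) * (q : ℝ)) * ∏ p ∈ D, (#(R p) : ℝ) / p| ≤ ∑ _t ∈ R q, ∏ p ∈ D, (#(R p) : ℝ) := by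
      refine sum_le_sum fun t _ => ?_
      have := h1 t
      push_cast at this
      exact this
    refine h7.trans ?_
    rw [sum_const, nsmul_eq_mul, prod_insert hq]

lemma br_pow (S x : ℝ) (hS : 0 ≤ S) (hx : 0 ≤ x) (n : ℕ) : S ^ (n + 1) + (n + 1) * x * S ^ n ≤ (S + x) ^ (n + 1) := by
  induction n with
  | zero => simp
  | succ n ih =>
    have h1 : (S + x) ^ (n + 1 + 1) = (S + x) ^ (n + 1) * (S + x) := pow_succ _ _
    rw [h1]
    have h2 := mul_le_mul_of_nonneg_right ih (add_nonneg hS hx)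
    refine le_trans ?_ h2
    have h3 : (S ^ (n + 1) + ((n : ℝ) + 1) * x * S ^ n) * (S + x) = S ^ (n + 1 + 1) +
        ((n : ℝ) + 1 + 1) * x * S ^ (n + 1) + (n + 1) * x ^ 2 * S ^ n := by ring
    rw [h3]
    push_cast
    have h4 : 0 ≤ ((n : ℝ) + 1) * x ^ 2 * S ^ n := by positivity
    linarith

/-- the elementary symmetric sums are at most `S ^ j / j!` -/
lemma br_es (x : ℕ → ℝ) (T : Finset ℕ) (hx : ∀ p ∈ T, 0 ≤ x p) (j : ℕ) :
    UL.es (fun _ => 1) x j T ≤ (∑ p ∈ T, x p) ^ j / j.factorial := by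
  induction T using Finset.induction_on generalizing j with
  | empty =>
    rcases j with _ | j
    · rw [UL.es_zero]; simp
    · rw [UL.es_empty]; simp
  | insert q T hq ih =>
    have hx' : ∀ p ∈ T, 0 ≤ x p := fun p hp => hx p (mem_insert_of_mem hp)
    have hxq := hx q (mem_insert_self q T)
    rcases j with _ | j
    · rw [UL.es_zero]; simp
    · rw [UL.es_insert _ _ _ hq, sum_insert hq]
      have h1 := ih hx' (j + 1)
      have h2 := ih hx' j
      have hS : 0 ≤ ∑ p ∈ T, x p := sum_nonneg hx'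
      have h3 := br_pow _ _ hS hxq j
      have hf : (0 : ℝ) < (j.factorial : ℝ) := by exact_mod_cast j.factorial_pos
      have hf1 : (0 : ℝ) < ((j + 1).factorial : ℝ) := by exact_mod_cast (j + 1).factorial_pos
      calc 1 * UL.es (fun _ => 1) x (j + 1) T + x q * UL.es (fun _ => 1) x j T
          ≤ (∑ p ∈ T, x p) ^ (j + 1) / (j + 1).factorial + x q * ((∑ p ∈ T, x p) ^ j / j.factorial) := by
            rw [one_mul]
            exact add_le_add h1 (mul_le_mul_of_nonneg_left h2 hxq)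
        _ = ((∑ p ∈ T, x p) ^ (j + 1) + ((j : ℝ) + 1) * x q * (∑ p ∈ T, x p) ^ j) / (j + 1).factorial := by
            rw [Nat.factorial_succ]
            push_cast
            field_simp
        _ ≤ (∑ p ∈ T, x p + x q) ^ (j + 1) / (j + 1).factorial :=
            div_le_div_of_nonneg_right h3 hf1.le
        _ = _ := by rw [add_comm (x q)]

lemma br_geom (Z : ℝ) (_hZ : 0 ≤ Z) (m : ℕ) : ∑ j ∈ range (m + 1), Z ^ (2 * j) ≤ (Z ^ 2 + 1) ^ m := by
  induction m with
  | zero => simp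
  | succ m ih =>
    rw [sum_range_succ]
    have h1 : Z ^ (2 * (m + 1)) = Z ^ 2 * (Z ^ 2) ^ m := by
      rw [pow_mul, pow_succ]
      ring
    have h2 : (Z ^ 2) ^ m ≤ (Z ^ 2 + 1) ^ m := pow_le_pow_left₀ (by positivity) (by linarith) m
    have h3 := mul_le_mul_of_nonneg_left h2 (by positivity : 0 ≤ Z ^ 2)
    have h4 : (Z ^ 2 + 1) ^ (m + 1) = (Z ^ 2 + 1) ^ m + Z ^ 2 * (Z ^ 2 + 1) ^ m := by ring
    rw [h1, h4]
    linarith

theorem brun (s : Finset ℕ) (hs : ∀ p ∈ s, p.Prime) (Z : ℕ) (hZ : ∀ p ∈ s, p ≤ Z) (R : ℕ → Finset ℕ)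
    (hR : ∀ p ∈ s, R p ⊆ range p) (r B : ℕ) (hB : 0 < B) :
    |(#((range B).filter fun b => ∀ p ∈ s, b % p ∉ R p) : ℝ) / B - ∏ p ∈ s, (1 - (#(R p) : ℝ) / p)| ≤
      2 * (∑ p ∈ s, (#(R p) : ℝ) / p) ^ (r + 1) / (r + 1).factorial + ((Z : ℝ) + 1) ^ (2 * (r + 2)) / B := by
  classical
  have hB0 : (0 : ℝ) < B := by exact_mod_cast hB
  have hcardR : ∀ p ∈ s, #(R p) ≤ p := fun p hp => by
    have := card_le_card (hR p hp)
    rwa [card_range] at this
  -- the quantities
  let x : ℕ → ℝ := fun p => (#(R p) : ℝ) / p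
  let I : ℕ → ℕ → ℝ := fun b p => if b % p ∈ R p then 1 else 0
  let E : ℕ → ℝ := fun j => UL.es (fun _ => 1) x j s
  let W : ℕ → ℝ := fun j => ∑ b ∈ range B, UL.es (fun _ => 1) (I b) j s
  have hx0 : ∀ p ∈ s, 0 ≤ x p := fun p _ => by positivity
  have hx1 : ∀ p ∈ s, x p ≤ 1 := fun p hp => by
    have h0 : (0 : ℝ) < p := by exact_mod_cast (hs p hp).pos
    change (#(R p) : ℝ) / p ≤ 1
    rw [div_le_one h0]
    exact_mod_cast hcardR p hp
  have hI0 : ∀ b p, 0 ≤ I b p := fun b p => by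
    change (0 : ℝ) ≤ if b % p ∈ R p then 1 else 0
    split_ifs <;> norm_num
  have hI1 : ∀ b p, I b p ≤ 1 := fun b p => by
    change (if b % p ∈ R p then (1 : ℝ) else 0) ≤ 1
    split_ifs <;> norm_num
  -- the count as a sum of products
  have hcount : (#((range B).filter fun b => ∀ p ∈ s, b % p ∉ R p) : ℝ) =
      ∑ b ∈ range B, ∏ p ∈ s, (1 - I b p) := by
    rw [card_filter]
    push_cast
    refine sum_congr rfl fun b _ => ?_
    have h1 : ∏ p ∈ s, (1 - I b p) = ∏ p ∈ s, (if b % p ∉ R p then (1 : ℝ) else 0) := by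
      refine prod_congr rfl fun p _ => ?_
      change 1 - (if b % p ∈ R p then (1 : ℝ) else 0) = _
      by_cases h : b % p ∈ R p <;> simp [h]
    rw [h1, prod_ite_zero]
    simp
  -- each subset
  have hW : ∀ j, W j = ∑ D ∈ powersetCard j s, (#((range B).filter fun b => ∀ p ∈ D, b % p ∈ R p) : ℝ) := by
    intro j
    change ∑ b ∈ range B, UL.es (fun _ => 1) (I b) j s = _
    unfold UL.es
    rw [sum_comm]
    refine sum_congr rfl fun D _ => ?_
    rw [card_filter]
    push_cast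
    refine sum_congr rfl fun b _ => ?_
    rw [prod_const_one, mul_one]
    change ∏ p ∈ D, (if b % p ∈ R p then (1 : ℝ) else 0) = _
    rw [prod_ite_zero]
    simp
  have hE : ∀ j, E j = ∑ D ∈ powersetCard j s, ∏ p ∈ D, x p := by
    intro j
    change UL.es (fun _ => 1) x j s = _
    unfold UL.es
    refine sum_congr rfl fun D _ => ?_
    rw [prod_const_one, mul_one]
  have hsZ : #s ≤ Z := by
    have h1 : s ⊆ Icc 1 Z := fun p hp => mem_Icc.2 ⟨(hs p hp).one_lt.le, hZ p hp⟩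
    have h2 := card_le_card h1
    rwa [Nat.card_Icc, Nat.add_sub_cancel] at h2
  have hWE : ∀ j, |W j - B * E j| ≤ (Z : ℝ) ^ (2 * j) := by
    intro j
    rw [hW, hE, mul_sum, ← sum_sub_distrib]
    refine (abs_sum_le_sum_abs _ _).trans ?_
    have h1 : ∀ D ∈ powersetCard j s,
        |(#((range B).filter fun b => ∀ p ∈ D, b % p ∈ R p) : ℝ) - B * ∏ p ∈ D, x p| ≤ (Z : ℝ) ^ j := by
      intro D hD
      rw [mem_powersetCard] at hD
      have h2 := br_count R B D (fun p hp => hs p (hD.1 hp)) (fun p hp => hR p (hD.1 hp)) 1 one_pos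
        (fun p _ => Nat.coprime_one_left p) 0
      simp only [Nat.modEq_one, true_and, Nat.cast_one, div_one] at h2
      refine h2.trans ?_
      rw [← hD.2, ← prod_const]
      refine prod_le_prod (fun p _ => Nat.cast_nonneg _) fun p hp => ?_
      exact_mod_cast (hcardR p (hD.1 hp)).trans (hZ p (hD.1 hp))
    refine (sum_le_sum h1).trans ?_
    rw [sum_const, card_powersetCard, nsmul_eq_mul]
    have h3 : (((#s).choose j : ℕ) : ℝ) ≤ (Z : ℝ) ^ j := by
      have h4 : (#s).choose j ≤ (#s) ^ j := Nat.choose_le_pow _ _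
      have h5 : (#s) ^ j ≤ Z ^ j := Nat.pow_le_pow_left hsZ j
      exact_mod_cast h4.trans h5
    calc (((#s).choose j : ℕ) : ℝ) * (Z : ℝ) ^ j ≤ (Z : ℝ) ^ j * (Z : ℝ) ^ j :=
          mul_le_mul_of_nonneg_right h3 (by positivity)
      _ = (Z : ℝ) ^ (2 * j) := by rw [two_mul, pow_add]
  -- Bonferroni twice
  have hb1 : |(#((range B).filter fun b => ∀ p ∈ s, b % p ∉ R p) : ℝ) -
      ∑ j ∈ range (r + 1), (-1) ^ j * W j| ≤ W (r + 1) := by
    have h1 : ∑ j ∈ range (r + 1), (-1) ^ j * W j = ∑ b ∈ range B, UL.fs (fun _ => 1) (I b) r s := by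
      unfold UL.fs
      rw [sum_comm]
      refine sum_congr rfl fun j _ => ?_
      change (-1) ^ j * ∑ b ∈ range B, UL.es (fun _ => 1) (I b) j s = _
      rw [mul_sum]
    rw [hcount, h1, ← sum_sub_distrib]
    refine (abs_sum_le_sum_abs _ _).trans ?_
    exact sum_le_sum fun b _ => UL.bonf_abs (c := fun _ => 1) (a := I b) (fun p _ => hI0 b p) (fun p _ => hI1 b p) r
  have hb2 : |∏ p ∈ s, (1 - x p) - ∑ j ∈ range (r + 1), (-1) ^ j * E j| ≤ E (r + 1) :=
    UL.bonf_abs (c := fun _ => 1) (a := x) hx0 hx1 r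
  have hmid : |∑ j ∈ range (r + 1), (-1) ^ j * W j - B * ∑ j ∈ range (r + 1), (-1) ^ j * E j| ≤
      ∑ j ∈ range (r + 1), (Z : ℝ) ^ (2 * j) := by
    rw [mul_sum, ← sum_sub_distrib]
    refine (abs_sum_le_sum_abs _ _).trans (sum_le_sum fun j _ => ?_)
    have h1 : (-1 : ℝ) ^ j * W j - B * ((-1) ^ j * E j) = (-1) ^ j * (W j - B * E j) := by ring
    rw [h1, abs_mul, abs_pow, abs_neg, abs_one, one_pow, one_mul]
    exact hWE j
  have hEle := br_es x s hx0 (r + 1)
  have hgeom : ∑ j ∈ range (r + 1 + 1), (Z : ℝ) ^ (2 * j) ≤ ((Z : ℝ) + 1) ^ (2 * (r + 2)) := by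
    refine (br_geom Z (Nat.cast_nonneg Z) (r + 1)).trans ?_
    have hZ0 : (0 : ℝ) ≤ Z := Nat.cast_nonneg Z
    calc ((Z : ℝ) ^ 2 + 1) ^ (r + 1) ≤ (((Z : ℝ) + 1) ^ 2) ^ (r + 1) :=
          pow_le_pow_left₀ (by positivity) (by nlinarith) _
      _ = ((Z : ℝ) + 1) ^ (2 * (r + 1)) := by rw [← pow_mul]
      _ ≤ ((Z : ℝ) + 1) ^ (2 * (r + 2)) := pow_le_pow_right₀ (by linarith) (by omega)
  rw [sum_range_succ] at hgeom
  have hWr := (abs_le.1 (hWE (r + 1))).2
  have htot : |(#((range B).filter fun b => ∀ p ∈ s, b % p ∉ R p) : ℝ) - B * ∏ p ∈ s, (1 - x p)| ≤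
      2 * B * E (r + 1) + ((Z : ℝ) + 1) ^ (2 * (r + 2)) := by
    have h1 := abs_le.1 hb1
    have h2 := abs_le.1 hmid
    have h3 : |B * ∏ p ∈ s, (1 - x p) - B * ∑ j ∈ range (r + 1), (-1) ^ j * E j| ≤ B * E (r + 1) := by
      rw [← mul_sub, abs_mul, abs_of_pos hB0]
      exact mul_le_mul_of_nonneg_left hb2 hB0.le
    have h4 := abs_le.1 h3
    rw [abs_le]
    constructor <;> linarith
  have hfin : (#((range B).filter fun b => ∀ p ∈ s, b % p ∉ R p) : ℝ) / B - ∏ p ∈ s, (1 - x p) =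
      ((#((range B).filter fun b => ∀ p ∈ s, b % p ∉ R p) : ℝ) - B * ∏ p ∈ s, (1 - x p)) / B := by
    rw [sub_div, mul_div_cancel_left₀ _ hB0.ne']
  change |(#((range B).filter fun b => ∀ p ∈ s, b % p ∉ R p) : ℝ) / B - ∏ p ∈ s, (1 - x p)| ≤ _
  rw [hfin, abs_div, abs_of_pos hB0, div_le_iff₀ hB0]
  refine htot.trans ?_
  have h5 : (2 * (∑ p ∈ s, (#(R p) : ℝ) / p) ^ (r + 1) / (r + 1).factorial +
      ((Z : ℝ) + 1) ^ (2 * (r + 2)) / B) * B =
      2 * B * ((∑ p ∈ s, (#(R p) : ℝ) / p) ^ (r + 1) / (r + 1).factorial) +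
      ((Z : ℝ) + 1) ^ (2 * (r + 2)) := by
    rw [add_mul, div_mul_cancel₀ _ hB0.ne', mul_div_assoc]
    ring
  rw [h5]
  have h6 : 2 * (B : ℝ) * E (r + 1) ≤
      2 * B * ((∑ p ∈ s, (#(R p) : ℝ) / p) ^ (r + 1) / (r + 1).factorial) :=
    mul_le_mul_of_nonneg_left hEle (by positivity)
  linarith

end Pool.Agent.L5helper86.RB
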