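import Mathlib

set_option autoImplicit false

/-! The strong law for pairwise negatively correlated events (piece D of project RB of helper86). -/

open Finset MeasureTheory ProbabilityTheory Filter Topology

namespace Pool.Agent.L5helper86.RB

namespace NegLaw

variable {Ω : Type} [MeasurableSpace Ω]

lemma second_moment (P : Measure Ω) [IsProbabilityMeasure P] (A : ℕ → Set Ω)
    (hA : ∀ n, MeasurableSet (A n))
    (hneg : ∀ n m, n ≠ m → P.real (A n ∩ A m) ≤ P.real (A n) * P.real (A m)) (x : ℕ) :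
    Integrable (fun ω => ((∑ n ∈ range x, (A n).indicator (fun _ => (1 : ℝ)) ω) -
      ∑ n ∈ range x, P.real (A n)) ^ 2) P ∧
    ∫ ω, ((∑ n ∈ range x, (A n).indicator (fun _ => (1 : ℝ)) ω) - ∑ n ∈ range x, P.real (A n)) ^ 2 ∂P ≤
      ∑ n ∈ range x, P.real (A n) := by
  set f : ℕ → Ω → ℝ := fun n ω => (A n).indicator (fun _ => (1 : ℝ)) ω - P.real (A n) with hf
  have hI : ∀ n, Integrable (fun ω => (A n).indicator (fun _ => (1 : ℝ)) ω) P := fun n =>
    (integrable_const (1 : ℝ)).indicator (hA n)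
  have hIi : ∀ n, ∫ ω, (A n).indicator (fun _ => (1 : ℝ)) ω ∂P = P.real (A n) := fun n => by
    rw [integral_indicator (hA n)]
    simp [measureReal_def]
  have hprod : ∀ n m ω, (A n).indicator (fun _ => (1 : ℝ)) ω * (A m).indicator (fun _ => (1 : ℝ)) ω =
      (A n ∩ A m).indicator (fun _ => (1 : ℝ)) ω := by
    intro n m ω
    by_cases h1 : ω ∈ A n <;> by_cases h2 : ω ∈ A m <;> simp [h1, h2]
  have hIp : ∀ n m, Integrable (fun ω => (A n ∩ A m).indicator (fun _ => (1 : ℝ)) ω) P := fun n m =>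
    (integrable_const (1 : ℝ)).indicator ((hA n).inter (hA m))
  have hexp : ∀ n m ω, f n ω * f m ω = (A n ∩ A m).indicator (fun _ => (1 : ℝ)) ω -
      P.real (A m) * (A n).indicator (fun _ => (1 : ℝ)) ω -
      P.real (A n) * (A m).indicator (fun _ => (1 : ℝ)) ω + P.real (A n) * P.real (A m) := by
    intro n m ω
    rw [← hprod]
    simp only [hf]
    ring
  have hint : ∀ n m, Integrable (fun ω => f n ω * f m ω) P := by
    intro n m
    simp only [hexp]
    exact (((hIp n m).sub ((hI n).const_mul _)).sub ((hI m).const_mul _)).add (integrable_const _)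
  have hval : ∀ n m, ∫ ω, f n ω * f m ω ∂P = P.real (A n ∩ A m) - P.real (A n) * P.real (A m) := by
    intro n m
    simp only [hexp]
    have i1 : Integrable (fun ω => P.real (A m) * (A n).indicator (fun _ => (1 : ℝ)) ω) P := (hI n).const_mul _
    have i2 : Integrable (fun ω => P.real (A n) * (A m).indicator (fun _ => (1 : ℝ)) ω) P := (hI m).const_mul _
    have i3 : Integrable (fun ω => (A n ∩ A m).indicator (fun _ => (1 : ℝ)) ω -
        P.real (A m) * (A n).indicator (fun _ => (1 : ℝ)) ω) P := (hIp n m).sub i1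
    have i4 : Integrable (fun ω => (A n ∩ A m).indicator (fun _ => (1 : ℝ)) ω -
        P.real (A m) * (A n).indicator (fun _ => (1 : ℝ)) ω -
        P.real (A n) * (A m).indicator (fun _ => (1 : ℝ)) ω) P := i3.sub i2
    rw [integral_add i4 (integrable_const _), integral_sub i3 i2, integral_sub (hIp n m) i1,
      integral_const_mul, integral_const_mul, hIi, hIi,
      integral_indicator ((hA n).inter (hA m))]
    simp [measureReal_def]
    ring
  have hsq : ∀ ω, ((∑ n ∈ range x, (A n).indicator (fun _ => (1 : ℝ)) ω) - ∑ n ∈ range x, P.real (A n)) ^ 2 =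
      ∑ n ∈ range x, ∑ m ∈ range x, f n ω * f m ω := by
    intro ω
    rw [← Finset.sum_sub_distrib, sq, Finset.sum_mul_sum]
  simp only [hsq]
  constructor
  · exact integrable_finsetSum _ fun n _ => integrable_finsetSum _ fun m _ => hint n m
  · rw [integral_finsetSum _ fun n _ => integrable_finsetSum _ fun m _ => hint n m]
    refine Finset.sum_le_sum fun n hn => ?_
    rw [integral_finsetSum _ fun m _ => hint n m, ← Finset.add_sum_erase _ _ hn]
    have h1 : ∑ m ∈ (range x).erase n, ∫ ω, f n ω * f m ω ∂P ≤ 0 := by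
      refine Finset.sum_nonpos fun m hm => ?_
      rw [hval]
      linarith [hneg n m (Finset.ne_of_mem_erase hm).symm]
    have h2 : ∫ ω, f n ω * f n ω ∂P ≤ P.real (A n) := by
      rw [hval, Set.inter_self]
      nlinarith [measureReal_nonneg (μ := P) (s := A n)]
    linarith

/-- the deterministic interpolation -/
lemma interp {s m : ℕ → ℝ} (hs : Monotone s) (hs0 : 0 ≤ s 0) (hm : Monotone m) (hm' : Tendsto m atTop atTop)
    {N : ℕ → ℕ} (hN : ∀ k x : ℕ, N k ≤ x ↔ (k : ℝ) ^ 2 ≤ m x) (hN1 : ∀ k : ℕ, m (N k) ≤ (k : ℝ) ^ 2 + 1)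
    (hr : Tendsto (fun k => s (N k) / m (N k)) atTop (𝓝 1)) : Tendsto (fun x => s x / m x) atTop (𝓝 1) := by
  have hNk : ∀ k : ℕ, (k : ℝ) ^ 2 ≤ m (N k) := fun k => (hN k (N k)).1 le_rfl
  set κ : ℕ → ℕ := fun x => Nat.sqrt ⌊m x⌋₊ with hκ
  have hκt : Tendsto κ atTop atTop := by
    have h1 : Tendsto (fun x => ⌊m x⌋₊) atTop atTop := tendsto_nat_floor_atTop.comp hm'
    have h2 : Tendsto Nat.sqrt atTop atTop := by
      refine tendsto_atTop.2 fun b => ?_
      filter_upwards [eventually_ge_atTop (b * b)] with n hn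
      exact Nat.le_sqrt.2 hn
    exact h2.comp h1
  have h1 : ∀ x, 0 ≤ m x → N (κ x) ≤ x := by
    intro x hx
    rw [hN]
    have h2 : κ x * κ x ≤ ⌊m x⌋₊ := Nat.sqrt_le _
    have h3 : ((κ x * κ x : ℕ) : ℝ) ≤ m x := (Nat.cast_le.2 h2).trans (Nat.floor_le hx)
    rw [sq]
    exact_mod_cast h3
  have h2 : ∀ x, 0 ≤ m x → x ≤ N (κ x + 1) := by
    intro x hx
    by_contra hcon
    push Not at hcon
    have h3 := (hN (κ x + 1) x).1 hcon.le
    have h4 : ⌊m x⌋₊ < (κ x + 1) * (κ x + 1) := Nat.lt_succ_sqrt _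
    have h5 : m x < ((κ x + 1) * (κ x + 1) : ℕ) := (Nat.floor_lt hx).1 h4
    rw [sq] at h3
    push_cast at h3 h5
    linarith
  -- the two bounds
  set r : ℕ → ℝ := fun k => s (N k) / m (N k) with hrdef
  set q : ℕ → ℝ := fun k => (((k + 1 : ℕ) : ℝ) ^ 2 + 1) / (k : ℝ) ^ 2 with hq
  have hq1 : Tendsto q atTop (𝓝 1) := by
    have h3 : Tendsto (fun k : ℕ => (1 + (k : ℝ)⁻¹) ^ 2 + ((k : ℝ)⁻¹) ^ 2) atTop (𝓝 ((1 + 0) ^ 2 + 0 ^ 2)) :=
      ((tendsto_const_nhds.add tendsto_inv_atTop_nhds_zero_nat).pow 2).add (tendsto_inv_atTop_nhds_zero_nat.pow 2)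
    have h4 : ((1 : ℝ) + 0) ^ 2 + 0 ^ 2 = 1 := by norm_num
    rw [h4] at h3
    refine h3.congr' ?_
    filter_upwards [eventually_ge_atTop 1] with k hk
    have hk' : (k : ℝ) ≠ 0 := by
      have : 0 < (k : ℝ) := by exact_mod_cast hk
      exact this.ne'
    rw [hq]
    push_cast
    field_simp
  have hs' : ∀ x, 0 ≤ s x := fun x => hs0.trans (hs (Nat.zero_le x))
  have hup : Tendsto (fun x => r (κ x + 1) * q (κ x)) atTop (𝓝 1) := by
    have h3 : Tendsto (fun k => r (k + 1) * q k) atTop (𝓝 (1 * 1)) :=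
      ((tendsto_add_atTop_iff_nat 1).2 hr).mul hq1
    rw [one_mul] at h3
    exact h3.comp hκt
  have hlow : Tendsto (fun x => r (κ x) * (q (κ x))⁻¹) atTop (𝓝 1) := by
    have h3 : Tendsto (fun k => r k * (q k)⁻¹) atTop (𝓝 (1 * 1⁻¹)) := hr.mul (hq1.inv₀ one_ne_zero)
    rw [inv_one, one_mul] at h3
    exact h3.comp hκt
  have hmpos : ∀ᶠ x in atTop, 0 < m x := hm'.eventually_gt_atTop 0
  refine tendsto_of_tendsto_of_tendsto_of_le_of_le' hlow hup ?_ ?_
  · filter_upwards [hmpos, hκt.eventually_ge_atTop 1] with x hx hk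
    set k := κ x with hkdef
    have hk0 : (0 : ℝ) < (k : ℝ) ^ 2 := by positivity
    have hmk : 0 < m (N k) := hk0.trans_le (hNk k)
    have e1 : r k * (q k)⁻¹ ≤ s (N k) / m x := by
      have e2 : m x ≤ ((k + 1 : ℕ) : ℝ) ^ 2 + 1 := (hm (h2 x hx.le)).trans (hN1 (k + 1))
      have e3 : r k * (q k)⁻¹ = s (N k) * ((k : ℝ) ^ 2 / m (N k)) / (((k + 1 : ℕ) : ℝ) ^ 2 + 1) := by
        simp only [hrdef, hq]
        rw [inv_div]
        ring
      rw [e3]
      have e4 : (k : ℝ) ^ 2 / m (N k) ≤ 1 := (div_le_one hmk).2 (hNk k)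
      have e5 : s (N k) * ((k : ℝ) ^ 2 / m (N k)) ≤ s (N k) := mul_le_of_le_one_right (hs' _) e4
      calc s (N k) * ((k : ℝ) ^ 2 / m (N k)) / (((k + 1 : ℕ) : ℝ) ^ 2 + 1) ≤
          s (N k) / (((k + 1 : ℕ) : ℝ) ^ 2 + 1) := div_le_div_of_nonneg_right e5 (by positivity)
        _ ≤ s (N k) / m x := div_le_div_of_nonneg_left (hs' _) hx e2
    exact e1.trans (div_le_div_of_nonneg_right (hs (h1 x hx.le)) hx.le)
  · filter_upwards [hmpos, hκt.eventually_ge_atTop 1] with x hx hk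
    set k := κ x with hkdef
    have hk0 : (0 : ℝ) < (k : ℝ) ^ 2 := by positivity
    have hk1 : (0 : ℝ) < ((k + 1 : ℕ) : ℝ) ^ 2 := by positivity
    have hmk1 : 0 < m (N (k + 1)) := hk1.trans_le (hNk (k + 1))
    have hkx : (k : ℝ) ^ 2 ≤ m x := (hN k x).1 (h1 x hx.le)
    have e1 : s x / m x ≤ s (N (k + 1)) / m x := div_le_div_of_nonneg_right (hs (h2 x hx.le)) hx.le
    refine e1.trans ?_
    have e3 : r (k + 1) * q k = s (N (k + 1)) * ((((k + 1 : ℕ) : ℝ) ^ 2 + 1) / m (N (k + 1))) / (k : ℝ) ^ 2 := by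
      simp only [hrdef, hq]
      ring
    rw [e3]
    have e4 : 1 ≤ (((k + 1 : ℕ) : ℝ) ^ 2 + 1) / m (N (k + 1)) := (one_le_div hmk1).2 (hN1 (k + 1))
    have e5 : s (N (k + 1)) ≤ s (N (k + 1)) * ((((k + 1 : ℕ) : ℝ) ^ 2 + 1) / m (N (k + 1))) :=
      le_mul_of_one_le_right (hs' _) e4
    calc s (N (k + 1)) / m x ≤ s (N (k + 1)) / (k : ℝ) ^ 2 := div_le_div_of_nonneg_left (hs' _) hk0 hkx
      _ ≤ _ := div_le_div_of_nonneg_right e5 hk0.le

end NegLaw

open NegLaw in
theorem neg_law {Ω : Type} [MeasurableSpace Ω] (P : Measure Ω) [IsProbabilityMeasure P] (A : ℕ → Set Ω)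
    (hA : ∀ n, MeasurableSet (A n)) (hneg : ∀ n m, n ≠ m → P.real (A n ∩ A m) ≤ P.real (A n) * P.real (A m))
    (hdiv : Tendsto (fun x : ℕ => ∑ n ∈ range x, P.real (A n)) atTop atTop) :
    ∀ᵐ ω ∂P, Tendsto (fun x : ℕ => (∑ n ∈ range x, (A n).indicator (fun _ => (1 : ℝ)) ω) / ∑ n ∈ range x, P.real (A n))
      atTop (𝓝 1) := by
  classical
  set m : ℕ → ℝ := fun x => ∑ n ∈ range x, P.real (A n) with hm
  set S : ℕ → Ω → ℝ := fun x ω => ∑ n ∈ range x, (A n).indicator (fun _ => (1 : ℝ)) ω with hS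
  have hmono : Monotone m := fun x y hxy =>
    Finset.sum_le_sum_of_subset_of_nonneg (Finset.range_subset_range.2 hxy) fun _ _ _ => measureReal_nonneg
  have hSmono : ∀ ω, Monotone fun x => S x ω := fun ω x y hxy =>
    Finset.sum_le_sum_of_subset_of_nonneg (Finset.range_subset_range.2 hxy) fun n _ _ =>
      Set.indicator_nonneg (fun _ _ => zero_le_one) ω
  have hex : ∀ k : ℕ, ∃ x, (k : ℝ) ^ 2 ≤ m x := fun k => (hdiv.eventually_ge_atTop ((k : ℝ) ^ 2)).exists
  set N : ℕ → ℕ := fun k => Nat.find (hex k) with hNdef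
  have hN : ∀ k x : ℕ, N k ≤ x ↔ (k : ℝ) ^ 2 ≤ m x := by
    intro k x
    constructor
    · intro h
      exact (Nat.find_spec (hex k)).trans (hmono h)
    · intro h
      exact Nat.find_min' (hex k) h
  have hN1 : ∀ k : ℕ, m (N k) ≤ (k : ℝ) ^ 2 + 1 := by
    intro k
    rcases Nat.eq_zero_or_pos (N k) with h0 | h0
    · rw [h0]
      simp only [hm, Finset.range_zero, Finset.sum_empty]
      positivity
    · obtain ⟨j, hj⟩ : ∃ j, N k = j + 1 := ⟨N k - 1, by omega⟩
      have h1 : ¬ (k : ℝ) ^ 2 ≤ m j := fun h => by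
        have := (hN k j).2 h
        omega
      push Not at h1
      rw [hj]
      have h2 : m (j + 1) = m j + P.real (A j) := by
        simp only [hm]
        rw [Finset.sum_range_succ]
      rw [h2]
      have h3 : P.real (A j) ≤ 1 := measureReal_le_one
      linarith
  have hNk : ∀ k : ℕ, (k : ℝ) ^ 2 ≤ m (N k) := fun k => (hN k (N k)).1 le_rfl
  set g : ℕ → Ω → ℝ := fun k ω => ((S (N k) ω - m (N k)) / m (N k)) ^ 2 with hg
  have hgm : ∀ k, Integrable (g k) P ∧ ∫ ω, g k ω ∂P ≤ 1 / (k : ℝ) ^ 2 := by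
    intro k
    obtain ⟨h1, h2⟩ := second_moment P A hA hneg (N k)
    have h3 : g k = fun ω => ((m (N k)) ^ 2)⁻¹ * (S (N k) ω - m (N k)) ^ 2 := by
      funext ω
      simp only [hg]
      rw [div_pow]
      ring
    rw [h3]
    refine ⟨h1.const_mul _, ?_⟩
    rw [integral_const_mul]
    have hm0 : 0 ≤ m (N k) := (sq_nonneg _).trans (hNk k)
    rcases Nat.eq_zero_or_pos k with hk | hk
    · have h4 : m (N k) = 0 := by
        have h5 : N k = 0 := by
          have := (hN k 0).2 (by rw [hk]; simp [hm])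
          omega
        rw [h5]
        simp [hm]
      rw [h4, hk]
      simp
    · have hk0 : (0 : ℝ) < (k : ℝ) ^ 2 := by positivity
      have hmk : 0 < m (N k) := hk0.trans_le (hNk k)
      calc ((m (N k)) ^ 2)⁻¹ * ∫ ω, (S (N k) ω - m (N k)) ^ 2 ∂P ≤ ((m (N k)) ^ 2)⁻¹ * m (N k) :=
            mul_le_mul_of_nonneg_left h2 (by positivity)
        _ = 1 / m (N k) := by field_simp
        _ ≤ 1 / (k : ℝ) ^ 2 := one_div_le_one_div_of_le hk0 (hNk k)
  have hg0 : ∀ k ω, 0 ≤ g k ω := fun k ω => sq_nonneg _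
  have hmeas : ∀ k, AEMeasurable (fun ω => ENNReal.ofReal (g k ω)) P := fun k =>
    (hgm k).1.aemeasurable.ennreal_ofReal
  have hfin : ∫⁻ ω, ∑' k, ENNReal.ofReal (g k ω) ∂P ≠ ⊤ := by
    rw [lintegral_tsum hmeas]
    have h1 : ∀ k, ∫⁻ ω, ENNReal.ofReal (g k ω) ∂P ≤ ENNReal.ofReal (1 / (k : ℝ) ^ 2) := by
      intro k
      rw [← ofReal_integral_eq_lintegral_ofReal (hgm k).1 (Eventually.of_forall (hg0 k))]
      exact ENNReal.ofReal_le_ofReal (hgm k).2
    refine ne_top_of_le_ne_top ?_ (ENNReal.tsum_le_tsum h1)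
    have h2 : Summable fun k : ℕ => 1 / (k : ℝ) ^ 2 := Real.summable_one_div_nat_pow.2 (by norm_num)
    rw [← ENNReal.ofReal_tsum_of_nonneg (fun k => by positivity) h2]
    exact ENNReal.ofReal_ne_top
  have hae := ae_lt_top' (AEMeasurable.ennreal_tsum hmeas) hfin
  filter_upwards [hae] with ω hω
  have ht0 : Tendsto (fun k => ENNReal.ofReal (g k ω)) atTop (𝓝 0) :=
    ENNReal.tendsto_atTop_zero_of_tsum_ne_top hω.ne
  have ht1 : Tendsto (fun k => g k ω) atTop (𝓝 0) := by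
    have h1 := (ENNReal.tendsto_toReal ENNReal.zero_ne_top).comp ht0
    simp only [ENNReal.toReal_zero] at h1
    refine h1.congr fun k => ?_
    simp only [Function.comp_apply]
    exact ENNReal.toReal_ofReal (hg0 k ω)
  have ht2 : Tendsto (fun k => |(S (N k) ω - m (N k)) / m (N k)|) atTop (𝓝 0) := by
    have h1 := (Real.continuous_sqrt.tendsto 0).comp ht1
    rw [Real.sqrt_zero] at h1
    refine h1.congr fun k => ?_
    simp only [Function.comp_apply, hg]
    exact Real.sqrt_sq_eq_abs _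
  have ht3 : Tendsto (fun k => (S (N k) ω - m (N k)) / m (N k)) atTop (𝓝 0) :=
    (tendsto_zero_iff_abs_tendsto_zero _).2 ht2
  have ht4 : Tendsto (fun k => S (N k) ω / m (N k)) atTop (𝓝 1) := by
    have h1 := ht3.add_const 1
    rw [zero_add] at h1
    refine h1.congr' ?_
    filter_upwards [eventually_ge_atTop 1] with k hk
    have hk0 : (0 : ℝ) < (k : ℝ) ^ 2 := by positivity
    have hmk : 0 < m (N k) := hk0.trans_le (hNk k)
    field_simp
    ring
  exact interp (hSmono ω) (by simp) hmono hdiv hN hN1 ht4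

end Pool.Agent.L5helper86.RB
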