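import Mathlib

set_option autoImplicit false

/-! Two lemmas for project RB (helper86): primality by the small prime factors, and counting for
periodic conditions. -/

open Finset

namespace Pool.Agent.L5helper86.RB

theorem prime_link {b n : ℕ} (hb : 2 ≤ b) (hn : n.Prime) (hn5 : 5 ≤ n) :
    ((b ^ n + 1) / (b + 1)).Prime ↔
      ∀ p : ℕ, p.Prime → (p : ℝ) ≤ Real.exp (Real.log b / 2 * n) → ¬ p ∣ (b ^ n + 1) / (b + 1) := by
  have hodd : Odd n := hn.odd_of_ne_two (by omega)
  have hdvd : b + 1 ∣ b ^ n + 1 := by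
    have := hodd.nat_add_dvd_pow_add_pow b 1
    rwa [one_pow] at this
  set Q := (b ^ n + 1) / (b + 1) with hQ
  have hQm : Q * (b + 1) = b ^ n + 1 := Nat.div_mul_cancel hdvd
  -- the condition on `p`
  have hexp : ∀ p : ℕ, (p : ℝ) ≤ Real.exp (Real.log b / 2 * n) ↔ p ^ 2 ≤ b ^ n := by
    intro p
    have hb0 : (0 : ℝ) < b := by exact_mod_cast (by omega : 0 < b)
    have h1 : Real.exp (Real.log b / 2 * n) ^ 2 = (b : ℝ) ^ n := by
      rw [← Real.exp_nat_mul]
      have : ((2 : ℕ) : ℝ) * (Real.log b / 2 * n) = n * Real.log b := by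
        push_cast
        ring
      rw [this, Real.exp_nat_mul, Real.exp_log hb0]
    constructor
    · intro h
      have h2 := pow_le_pow_left₀ (Nat.cast_nonneg p) h 2
      rw [h1] at h2
      exact_mod_cast h2
    · intro h
      refine le_of_sq_le_sq ?_ (Real.exp_pos _).le
      rw [h1]
      exact_mod_cast h
  have hbn : 8 * b ^ 2 ≤ b ^ n := by
    calc 8 * b ^ 2 ≤ b ^ 3 * b ^ 2 :=
          Nat.mul_le_mul_right _ (by
            calc 8 = 2 ^ 3 := by norm_num
              _ ≤ b ^ 3 := Nat.pow_le_pow_left hb 3)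
      _ = b ^ 5 := by ring
      _ ≤ b ^ n := Nat.pow_le_pow_right (by omega) hn5
  have hb1 : b + 1 ≤ 2 * b := by omega
  have hQ1 : 1 < Q := by
    by_contra hcon
    push Not at hcon
    have h1 : Q * (b + 1) ≤ 1 * (b + 1) := Nat.mul_le_mul_right _ hcon
    rw [hQm] at h1
    nlinarith
  constructor
  · intro hp p hpp hple hpd
    rw [hexp] at hple
    have h1 : p = Q := (Nat.prime_dvd_prime_iff_eq hpp hp).1 hpd
    rw [h1] at hple
    have h2 : (Q * (b + 1)) ^ 2 ≤ b ^ n * (2 * b) ^ 2 := by
      rw [mul_pow]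
      exact Nat.mul_le_mul hple (Nat.pow_le_pow_left hb1 2)
    rw [hQm] at h2
    have h3 : b ^ n * (2 * b) ^ 2 ≤ b ^ n * b ^ n := by
      refine Nat.mul_le_mul_left _ ?_
      calc (2 * b) ^ 2 = 4 * b ^ 2 := by ring
        _ ≤ 8 * b ^ 2 := by omega
        _ ≤ b ^ n := hbn
    have h4 : b ^ n * b ^ n < (b ^ n + 1) ^ 2 := by nlinarith
    omega
  · intro h
    by_contra hnp
    have h1 := Nat.minFac_sq_le_self (by omega : 0 < Q) hnp
    refine h Q.minFac (Nat.minFac_prime (by omega)) ((hexp _).2 (h1.trans ?_)) (Nat.minFac_dvd Q)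
    have h2 : Q * 3 ≤ Q * (b + 1) := Nat.mul_le_mul_left _ (by omega)
    rw [hQm] at h2
    omega

theorem per_count (G : ℕ → Prop) [DecidablePred G] (M : ℕ) (hM : 0 < M) (hper : ∀ b, G (b % M) ↔ G b) (B : ℕ)
    (hB : M ≤ B) : (#((range B).filter G) : ℝ) ≤ 2 * B / M * #((range M).filter G) := by
  have hp : Function.Periodic G M := by
    intro b
    rw [← hper (b + M), Nat.add_mod_right, hper]
  have hblock : ∀ k : ℕ, #((range (k * M)).filter G) = k * #((range M).filter G) := by
    intro k
    induction k with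
    | zero => simp
    | succ k ih =>
      have h1 : range ((k + 1) * M) = range (k * M) ∪ Ico (k * M) (k * M + M) := by
        ext x
        rw [mem_union, mem_range, mem_range, mem_Ico, Nat.succ_mul]
        omega
      have h2 : Disjoint ((range (k * M)).filter G) ((Ico (k * M) (k * M + M)).filter G) := by
        rw [disjoint_left]
        intro x hx hx'
        rw [mem_filter, mem_range] at hx
        rw [mem_filter, mem_Ico] at hx'
        omega
      rw [h1, filter_union, card_union_of_disjoint h2, ih, Nat.filter_Ico_card_eq_of_periodic _ _ _ hp,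
        Nat.count_eq_card_filter_range]
      ring
  have h1 : #((range B).filter G) ≤ (B / M + 1) * #((range M).filter G) := by
    rw [← hblock]
    refine card_le_card (filter_subset_filter _ ?_)
    refine range_subset_range.2 ?_
    have := Nat.lt_div_mul_add (a := B) hM
    rw [Nat.succ_mul]
    exact this.le
  have h2 : ((B / M + 1 : ℕ) : ℝ) ≤ 2 * B / M := by
    have hM0 : (0 : ℝ) < M := by exact_mod_cast hM
    have h3 : ((B / M : ℕ) : ℝ) ≤ (B : ℝ) / M := Nat.cast_div_le
    have h4 : (1 : ℝ) ≤ (B : ℝ) / M := by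
      rw [one_le_div hM0]
      exact_mod_cast hB
    push_cast
    rw [mul_div_assoc]
    linarith
  calc (#((range B).filter G) : ℝ) ≤ (((B / M + 1) * #((range M).filter G) : ℕ) : ℝ) := by exact_mod_cast h1
    _ = ((B / M + 1 : ℕ) : ℝ) * #((range M).filter G) := by push_cast; ring
    _ ≤ _ := mul_le_mul_of_nonneg_right h2 (Nat.cast_nonneg _)

end Pool.Agent.L5helper86.RB
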